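import Mathlib

namespace Pool.Agent.H.MP_23f360

open Filter Topology Set Cardinal Module

theorem rc {ι α : Type} [LinearOrder ι] [WellFoundedLT ι] [Nonempty α]
    (P : ι → (ι → α) → α → Prop) (h : ∀ r p, ∃ a, P r p a)
    (l : ∀ r p q a, (∀ i < r, p i = q i) → P r p a → P r q a) : ∃ s : ι → α, ∀ r, P r s (s r) := by
  classical
  choose c hc using h
  refine ⟨wellFounded_lt.fix fun r p => c r fun i => if h : i < r then p i h
    else Classical.arbitrary α, fun r => ?_⟩
  rw [WellFounded.fix_eq]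
  exact l _ _ _ _ (fun i h => dif_pos h) (hc _ _)

abbrev F := ZMod 2

theorem li {E : Type} [AddCommGroup E] [Module F E] (w : ℕ → E)
    (h : ∀ k, w k ∉ Submodule.span F (w '' Iio k)) : LinearIndependent F w := by
  rw [linearIndependent_iff']
  intro s g hg
  by_contra hc
  push Not at hc
  obtain ⟨j, hj, hm⟩ := (s.filter fun i => g i ≠ 0).exists_max_image id
    (by obtain ⟨i, h1, h2⟩ := hc; exact ⟨i, Finset.mem_filter.2 ⟨h1, h2⟩⟩)
  obtain ⟨j1, j2⟩ := Finset.mem_filter.1 hj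
  rw [← Finset.add_sum_erase _ _ j1] at hg
  apply h j
  rw [← Submodule.smul_mem_iff _ j2, eq_neg_of_add_eq_zero_left hg]
  refine neg_mem (Submodule.sum_mem _ fun i hi => ?_)
  by_cases h0 : g i = 0
  · simp [h0]
  · refine Submodule.smul_mem _ _ (Submodule.subset_span ⟨i, ?_, rfl⟩)
    obtain ⟨a, b⟩ := Finset.mem_erase.1 hi
    exact lt_of_le_of_ne (hm i (Finset.mem_filter.2 ⟨b, h0⟩)) a

theorem gen {V E : Type} [AddCommGroup E] [Module F E] [AddCommGroup V] [Module F V]
    (m : ℕ → V →ₗ[F] E) (hm : ∀ n, ¬ Module.Finite F (LinearMap.range (m n))) (e : E) (he : e ≠ 0)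
    (K : Set (V →ₗ[F] F)) (hK : #K < 𝔠) :
    ∃ χ : E →ₗ[F] F, χ e = 1 ∧ ∀ n, χ ∘ₗ m n ∉ K := by
  obtain ⟨w, hw⟩ := rc (fun (r : ℕ) (p : ℕ → E) a => (r = 0 → a = e) ∧
    (∀ k, r = k + 1 → a ∈ LinearMap.range (m k.unpair.1)) ∧ a ∉ Submodule.span F (p '' Iio r))
    (fun r p => by
      rcases r with _ | k
      · exact ⟨e, fun _ => rfl, fun k hk => by omega, by simpa using he⟩
      · by_contra hc
        push Not at hc
        have : Module.Finite F (Submodule.span F (p '' Iio (k + 1))) :=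
          Module.Finite.span_of_finite F ((finite_Iio _).image p)
        refine hm k.unpair.1 (Submodule.finiteDimensional_of_le
          (S₂ := Submodule.span F (p '' Iio (k + 1))) fun a ha => hc a (fun h => by omega) ?_)
        intro j hj
        obtain rfl : k = j := by omega
        exact ha)
    (fun r p q a h1 h2 => by
      rwa [show q '' Iio r = p '' Iio r from image_congr fun i hi => (h1 i hi).symm])
  have hl := li w fun k => (hw k).2.2
  obtain ⟨L, hL⟩ := (Finsupp.linearCombination F w).exists_leftInverse_of_injective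
    (LinearMap.ker_eq_bot.2 hl)
  have hL' : ∀ k, L (w k) = Finsupp.single k 1 := fun k => by
    simpa using LinearMap.congr_fun hL (Finsupp.single k 1)
  let X : (ℕ → F) → E →ₗ[F] F := fun x =>
    Finsupp.linearCombination F (fun k => if k = 0 then 1 else x (k - 1).unpair.2) ∘ₗ L
  have X0 : ∀ x, X x e = 1 := fun x => by
    rw [← (hw 0).1 rfl]; simp [X, hL']
  have X1 : ∀ n, Function.Injective fun x => X x ∘ₗ m n := fun n x y hxy => by
    funext j
    obtain ⟨v, hv⟩ := (hw (Nat.pair n j + 1)).2.1 _ rfl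
    have := LinearMap.congr_fun hxy v
    rw [Nat.unpair_pair] at hv
    simpa [hv, X, hL'] using this
  by_contra hc
  push Not at hc
  choose n hn using fun x => hc (X x) (X0 x)
  have : #(ℕ → F) ≤ #(ℕ × K) := mk_le_of_injective (f := fun x => (n x, ⟨_, hn x⟩))
    fun x y h => by
      obtain ⟨h1, h2⟩ := Prod.ext_iff.1 h
      have h3 : X x ∘ₗ m (n x) = X y ∘ₗ m (n y) := congrArg Subtype.val h2
      have h1' : n x = n y := h1
      rw [← h1'] at h3
      exact X1 _ h3
  refine absurd this (not_le.2 ?_)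
  have e1 : #(ℕ → F) = 𝔠 := by simp [F]
  rw [e1, mk_prod]
  simp only [lift_id, mk_nat]
  exact mul_lt_of_lt aleph0_le_continuum aleph0_lt_continuum hK

theorem clo {M : Type} [AddMonoid M] (S : Set M) (h : #S < 𝔠) :
    #(AddSubmonoid.closure S : Set M) < 𝔠 := by
  refine lt_of_le_of_lt ?_ ((mk_list_le_max S).trans_lt (max_lt aleph0_lt_continuum h))
  refine (mk_le_mk_of_subset (t := range fun l : List S => (l.map Subtype.val).sum) ?_).trans
    mk_range_le
  intro x hx
  obtain ⟨l, h1, rfl⟩ := AddSubmonoid.exists_list_of_mem_closure hx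
  exact ⟨l.attachWith _ h1, by simp⟩

theorem dens {ι : Type} (W : Submodule F (ι → F))
    (h : ∀ (s : Finset ι) (c : ι → F), (∀ w ∈ W, ∑ i ∈ s, c i * w i = 0) → ∀ i ∈ s, c i = 0) :
    Dense (W : Set (ι → F)) := by
  classical
  rw [dense_iff_inter_open]
  rintro U hU ⟨x, hx⟩
  obtain ⟨s, u, h1, h2⟩ := isOpen_pi_iff.1 hU x hx
  let r : (ι → F) →ₗ[F] (s → F) := LinearMap.pi fun i => LinearMap.proj i.1
  have : W.map r = ⊤ := by
    by_contra hc
    obtain ⟨f, f0, f1⟩ := Submodule.exists_le_ker_of_lt_top _ (lt_top_iff_ne_top.2 hc)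
    apply f0
    have := h s (fun i => if hi : i ∈ s then f (Pi.single ⟨i, hi⟩ 1) else 0) fun w hw => by
      have a := f1 (Submodule.mem_map_of_mem (f := r) hw)
      rw [LinearMap.mem_ker, LinearMap.pi_apply_eq_sum_univ] at a
      rw [← a, ← Finset.sum_coe_sort]
      refine Finset.sum_congr rfl fun i _ => ?_
      rw [dif_pos i.2, mul_comm, smul_eq_mul]
      congr 2
      funext j
      simp [Pi.single_apply, eq_comm]
    refine LinearMap.pi_ext fun i a => ?_
    have b := this i i.2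
    rw [dif_pos i.2] at b
    rw [show (Pi.single i a : s → F) = a • Pi.single i 1 by simp [← Pi.single_smul], map_smul]
    simp [b]
  obtain ⟨w, hw, e⟩ : r x ∈ W.map r := this ▸ Submodule.mem_top
  refine ⟨w, h2 fun i hi => ?_, hw⟩
  have : w i = x i := congrFun e ⟨i, hi⟩
  rw [this]
  exact (h1 i hi).2

abbrev V := ℕ →₀ F
abbrev J := ℕ → F
abbrev I := (𝔠 : Cardinal.{0}).ord.ToType

theorem enu : ∃ (p : I → J → V →ₗ[F] V × V) (e : I → V × V), (∀ i, e i ≠ 0) ∧
    (∀ i, (range (p i)).Countable) ∧ ∀ A : Set J, A.Countable → ∀ (q : J → V →ₗ[F] V × V)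
      (x : V × V), x ≠ 0 → ∃ i, e i = x ∧ ∀ α ∈ A, p i α = q α := by
  classical
  have h1 : #(V →ₗ[F] V × V) ≤ 𝔠 := by
    refine (mk_le_of_injective DFunLike.coe_injective).trans ?_
    simp
  have h2 : #((ℕ → J) × (ℕ → V →ₗ[F] V × V) × {x : V × V // x ≠ 0}) ≤ #I := by
    have a : #(ℕ → J) ≤ 𝔠 := by simp [J, F]
    have b : #(ℕ → V →ₗ[F] V × V) ≤ 𝔠 := by
      rw [← power_def]
      refine (power_le_power_right h1).trans (by simp)
    have c : #{x : V × V // x ≠ 0} ≤ 𝔠 := mk_le_aleph0.trans aleph0_le_continuum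
    simp only [mk_prod, lift_id, mk_ord_toType]
    calc _ ≤ 𝔠 * (𝔠 * 𝔠) := by gcongr
      _ = 𝔠 := by simp
  obtain ⟨g⟩ := h2
  have : Nonempty {x : V × V // x ≠ 0} := ⟨⟨(Finsupp.single 0 1, 0), by simp⟩⟩
  obtain ⟨f, hf⟩ : ∃ f : I → (ℕ → J) × (ℕ → V →ₗ[F] V × V) × {x : V × V // x ≠ 0},
      Function.Surjective f := ⟨_, Function.invFun_surjective g.injective⟩
  refine ⟨fun i α => if h : ∃ n, (f i).1 n = α then (f i).2.1 h.choose else 0,
    fun i => (f i).2.2, fun i => (f i).2.2.2, fun i => ?_, fun A hA q x hx => ?_⟩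
  · refine ((countable_range (f i).2.1).insert 0).mono ?_
    rintro _ ⟨α, rfl⟩
    dsimp only
    split_ifs with h
    · exact Or.inr ⟨_, rfl⟩
    · exact Or.inl rfl
  · obtain ⟨a, ha⟩ := (hA.insert 0).exists_eq_range (insert_nonempty _ _)
    obtain ⟨i, hi⟩ := hf (a, fun n => q (a n), ⟨x, hx⟩)
    refine ⟨i, by simp only [hi], fun α hα => ?_⟩
    have : ∃ n, (f i).1 n = α := by
      rw [hi]; exact (ha ▸ mem_insert_of_mem _ hα : α ∈ range a)
    dsimp only
    rw [dif_pos this]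
    have b := this.choose_spec
    generalize this.choose = n at b
    rw [hi] at b ⊢
    exact congrArg q b

theorem sys (p : I → J → V →ₗ[F] V × V) (e : I → V × V) (he : ∀ i, e i ≠ 0)
    (hp : ∀ i, (range (p i)).Countable) : ∃ χ : I → V × V →ₗ[F] F, (∀ i, χ i (e i) = 1) ∧
    ∀ α (s : Finset I) (a b : I → F),
      ∑ i ∈ s, χ i ∘ₗ (a i • LinearMap.inl F V V + b i • p i α) = 0 →
      ∑ i ∈ s, χ i ∘ₗ (a i • p i α + b i • LinearMap.inr F V V) = 0 →
      ∀ i ∈ s, a i = 0 ∧ b i = 0 := by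
  classical
  obtain ⟨C, C0, C1, C2⟩ : ∃ C : I → Set (V →ₗ[F] V × V), (∀ i, (C i).Countable) ∧
      (∀ i α (a b : F), a • LinearMap.inl F V V + b • p i α ∈ C i) ∧
      ∀ i α (a b : F), a • p i α + b • LinearMap.inr F V V ∈ C i := by
    refine ⟨fun i => (⋃ a : F, ⋃ b : F, (fun q => a • LinearMap.inl F V V + b • q) '' range (p i)) ∪
      ⋃ a : F, ⋃ b : F, (fun q => a • q + b • LinearMap.inr F V V) '' range (p i),
      fun i => Countable.union ?_ ?_, fun i α a b => Or.inl ?_, fun i α a b => Or.inr ?_⟩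
    · exact countable_iUnion fun a => countable_iUnion fun b => (hp i).image _
    · exact countable_iUnion fun a => countable_iUnion fun b => (hp i).image _
    · exact mem_iUnion₂.2 ⟨a, b, _, ⟨α, rfl⟩, rfl⟩
    · exact mem_iUnion₂.2 ⟨a, b, _, ⟨α, rfl⟩, rfl⟩
  have inj : ∀ M : V →ₗ[F] V × V, Function.Injective M →
      ¬ Module.Finite F (LinearMap.range M) := fun M hM h => by
    have : Module.Finite F V := Module.Finite.equiv (LinearEquiv.ofInjective M hM).symm
    have := Module.finite_of_finite (R := F) (M := V)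
    exact not_finite V
  obtain ⟨χ, hχ⟩ := rc (fun (r : I) (x : I → V × V →ₗ[F] F) a => a (e r) = 1 ∧
    ∀ M ∈ C r, ¬ Module.Finite F (LinearMap.range M) →
      a ∘ₗ (-M) ∉ AddSubmonoid.closure (⋃ k : Iio r, (fun N => x k ∘ₗ N) '' C k))
    (fun r x => by
      obtain ⟨m, hm⟩ := (((C0 r).mono (sep_subset _ fun M =>
        ¬ Module.Finite F (LinearMap.range M))).insert (LinearMap.inl F V V)).exists_eq_range
        (insert_nonempty _ _)
      obtain ⟨a, a1, a2⟩ := gen (fun n => -m n) (fun n => by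
        rw [LinearMap.range_neg]
        have : m n ∈ range m := ⟨n, rfl⟩
        rw [← hm] at this
        rcases this with h | h
        · rw [h]; exact inj _ LinearMap.inl_injective
        · exact h.2) (e r) (he r) _ (clo (⋃ k : Iio r, (fun N => x k ∘ₗ N) '' C k) (by
          refine (mk_iUnion_le _).trans_lt (mul_lt_of_lt aleph0_le_continuum
            (by simpa using mk_Iio_lt r (by simp)) (lt_of_le_of_lt (ciSup_le' fun k => ?_) aleph0_lt_continuum))
          exact le_aleph0_iff_set_countable.2 ((C0 k).image _)))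
      refine ⟨a, a1, fun M h1 h2 => ?_⟩
      obtain ⟨n, rfl⟩ : M ∈ range m := hm ▸ Or.inr ⟨h1, h2⟩
      exact a2 n)
    (fun r x y a h1 h2 => by
      have : (⋃ k : Iio r, (fun N => y k ∘ₗ N) '' C k) = ⋃ k : Iio r, (fun N => x k ∘ₗ N) '' C k :=
        iUnion_congr fun k => by rw [h1 k k.2]
      rwa [this])
  refine ⟨χ, fun i => (hχ i).1, fun α s a b h1 h2 => ?_⟩
  by_contra hc
  push Not at hc
  obtain ⟨j, hj, hm⟩ := (s.filter fun i => ¬ (a i = 0 ∧ b i = 0)).exists_max_image id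
    (by obtain ⟨i, k1, k2⟩ := hc; exact ⟨i, Finset.mem_filter.2 ⟨k1, fun k => k2 k.1 k.2⟩⟩)
  obtain ⟨j1, j2⟩ := Finset.mem_filter.1 hj
  have key : ∀ M : I → V →ₗ[F] V × V, (∀ i, M i ∈ C i) → (∀ i, a i = 0 ∧ b i = 0 → M i = 0) →
      ∑ i ∈ s, χ i ∘ₗ M i = 0 → Module.Finite F (LinearMap.range (M j)) := by
    intro M k1 k2 k3
    by_contra k4
    apply (hχ j).2 _ (k1 j) k4
    rw [← Finset.add_sum_erase _ _ j1] at k3
    rw [LinearMap.comp_neg, neg_eq_of_add_eq_zero_right k3]
    refine AddSubmonoid.sum_mem _ fun i hi => ?_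
    by_cases h0 : a i = 0 ∧ b i = 0
    · rw [k2 i h0, LinearMap.comp_zero]; exact zero_mem _
    · obtain ⟨u, v⟩ := Finset.mem_erase.1 hi
      exact AddSubmonoid.subset_closure (mem_iUnion.2
        ⟨⟨i, lt_of_le_of_ne (hm i (Finset.mem_filter.2 ⟨v, h0⟩)) u⟩, _, k1 i, rfl⟩)
  have f1 := key _ (fun i => C1 i α (a i) (b i)) (fun i h => by simp [h.1, h.2]) h1
  have f2 := key _ (fun i => C2 i α (a i) (b i)) (fun i h => by simp [h.1, h.2]) h2
  refine inj ((a j * a j) • LinearMap.inl F V V - (b j * b j) • LinearMap.inr F V V) ?_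
    (Submodule.finiteDimensional_of_le (S₂ := LinearMap.range (a j • LinearMap.inl F V V +
      b j • p j α) ⊔ LinearMap.range (a j • p j α + b j • LinearMap.inr F V V)) ?_)
  · rw [← LinearMap.ker_eq_bot, LinearMap.ker_eq_bot']
    intro v hv
    by_contra h0
    simp [h0] at hv
    exact j2 hv
  · rintro _ ⟨v, rfl⟩
    refine Submodule.mem_sup.2 ⟨_, ⟨a j • v, rfl⟩, _, ⟨-(b j • v), rfl⟩, ?_⟩
    simp only [LinearMap.add_apply, LinearMap.smul_apply, LinearMap.sub_apply, map_neg, map_smul]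
    module

end Pool.Agent.H.MP_23f360
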